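import Pool.Agent.H688R2.MSR.Final

set_option autoImplicit false

/-!
# Maximal strip recovery on two permutations is fixed-parameter tractable for the number of
retained characters
-/

namespace Pool.Agent.Results.MP_eb915b_lc.StripRecoveryFPT

open Pool.Agent.NPC

/-- `S₁` and `S₂` admit a common strip partition: `S₁` is the concatenation of a list `B` of
blocks, each of length at least two, and `S₂` is the concatenation of the same blocks in some
(possibly different) order `B'`. -/
def CommonStripPartition (S₁ S₂ : List ℕ) : Prop :=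
  ∃ B B' : List (List ℕ), (∀ b ∈ B, 2 ≤ b.length) ∧ B'.Perm B ∧ S₁ = B.flatten ∧ S₂ = B'.flatten

/-- Maximal strip recovery, decision form: the genomes `G₁`, `G₂` have subsequences `S₁`, `S₂`
which admit a common strip partition and retain at least `k` characters. -/
def StripRecovery (G₁ G₂ : List ℕ) (k : ℕ) : Prop :=
  ∃ S₁ S₂ : List ℕ, S₁.Sublist G₁ ∧ S₂.Sublist G₂ ∧ CommonStripPartition S₁ S₂ ∧ k ≤ S₁.length

/-- There is a single Turing machine which, given the binary coding of two permutations `G₁`, `G₂`
of the same set of characters and a number `k`, outputs the coding of the Boolean which says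
whether `(G₁, G₂, k)` is a yes-instance of maximal strip recovery, within `f k * (N + 1) ^ c`
steps, where `N` is the length of the coding of the instance and `f` is a computable function. -/
theorem result :
    ∃ (tm : Turing.FinTM2) (e₀ : tm.Γ tm.k₀ ≃ Bool) (e₁ : tm.Γ tm.k₁ ≃ Bool)
      (f : ℕ → ℕ) (c : ℕ), Computable f ∧
      ∀ (G₁ G₂ : List ℕ) (k : ℕ), G₁.Nodup → G₁.Perm G₂ →
        ∃ b : Bool, (b = true ↔ StripRecovery G₁ G₂ k) ∧
          Nonempty (Turing.TM2OutputsInTime tm ((bits (G₁, G₂, k)).map e₀.invFun)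
            (some ((bits b).map e₁.invFun))
            (f k * ((bits (G₁, G₂, k)).length + 1) ^ c)) := by
  obtain ⟨tm, e₀, e₁, f, c, hf, h⟩ := Pool.Agent.H688R2.MSR.msr_fpt
  exact ⟨tm, e₀, e₁, f, c, hf, fun G₁ G₂ k hG₁ hperm =>
    ⟨_, Pool.Agent.H688R2.MSR.msr_iff hG₁ hperm k, h G₁ G₂ k⟩⟩

end Pool.Agent.Results.MP_eb915b_lc.StripRecoveryFPT
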